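import Mathlib

/-!
# A polygonal digraph of odd order with Laplacian spread one

We refute the statement that every polygonal digraph with Laplacian spread one has even order
and is, up to complement, regular of degree `(n-2)/2`.  The counterexample has order `9`; its
restricted numerical range is the trapezoid with corners `4 ± i√5` and `5 ± i`.
-/

set_option autoImplicit false

open Matrix

namespace Pool.Agent.Results.MP_8a2148_co.SpreadOne

/-- `d⁺(i)`, the out-degree of the vertex `i`. -/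
noncomputable def outDeg {n : ℕ} (Γ : Digraph (Fin n)) (i : Fin n) : ℕ := by
  classical exact (Finset.univ.filter (fun j => Γ.Adj i j)).card

/-- The adjacency matrix: `a i j = 1` iff `(i,j)` is an arc. -/
noncomputable def adjMat {n : ℕ} (Γ : Digraph (Fin n)) : Matrix (Fin n) (Fin n) ℝ := by
  classical exact Matrix.of fun i j => if Γ.Adj i j then 1 else 0

/-- The Laplacian `L = D - A`, `D` the diagonal matrix of out-degrees. -/
noncomputable def lap {n : ℕ} (Γ : Digraph (Fin n)) : Matrix (Fin n) (Fin n) ℝ :=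
  Matrix.diagonal (fun i => (outDeg Γ i : ℝ)) - adjMat Γ

/-- The Laplacian as a complex matrix. -/
noncomputable def lapC {n : ℕ} (Γ : Digraph (Fin n)) : Matrix (Fin n) (Fin n) ℂ :=
  (lap Γ).map (fun r : ℝ => (r : ℂ))

/-- The restricted numerical range `W_r(Γ)`: the values `x* L x` at complex unit vectors `x ⊥ e`. -/
def Wr {n : ℕ} (Γ : Digraph (Fin n)) : Set ℂ :=
  {z | ∃ x : Fin n → ℂ, ∑ i, x i = 0 ∧ ∑ i, ‖x i‖ ^ 2 = 1 ∧ z = star x ⬝ᵥ (lapC Γ *ᵥ x)}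

/-- The values `xᵀ L x` at real unit vectors `x ⊥ e`. -/
def realValues {n : ℕ} (Γ : Digraph (Fin n)) : Set ℝ :=
  {t | ∃ x : Fin n → ℝ, ∑ i, x i = 0 ∧ ∑ i, x i ^ 2 = 1 ∧ t = x ⬝ᵥ (lap Γ *ᵥ x)}

/-- `α(Γ)`, the least value of `xᵀ L x` at real unit vectors `x ⊥ e`. -/
noncomputable def alpha {n : ℕ} (Γ : Digraph (Fin n)) : ℝ := sInf (realValues Γ)

/-- `β(Γ)`, the greatest value of `xᵀ L x` at real unit vectors `x ⊥ e`. -/
noncomputable def beta {n : ℕ} (Γ : Digraph (Fin n)) : ℝ := sSup (realValues Γ)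

/-- The Laplacian spread `sp(Γ) = β(Γ) - α(Γ)`. -/
noncomputable def spread {n : ℕ} (Γ : Digraph (Fin n)) : ℝ := beta Γ - alpha Γ

/-- `Q` is a restrictor matrix: its `n-1` columns are orthonormal and orthogonal to `e`,
so they form an orthonormal basis of `e^⊥`. -/
def IsRestrictor {n : ℕ} (Q : Matrix (Fin n) (Fin (n - 1)) ℂ) : Prop :=
  Qᴴ * Q = 1 ∧ ∀ j, ∑ i, Q i j = 0

/-- `Γ` is polygonal: for every restrictor matrix `Q` (and there is one), `W_r(Γ)` is the convex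
hull of the eigenvalues of `Q* L Q`. -/
def IsPolygonal {n : ℕ} (Γ : Digraph (Fin n)) : Prop :=
  (∃ Q : Matrix (Fin n) (Fin (n - 1)) ℂ, IsRestrictor Q) ∧
    ∀ Q : Matrix (Fin n) (Fin (n - 1)) ℂ, IsRestrictor Q →
      Wr Γ = convexHull ℝ (spectrum ℂ (Qᴴ * lapC Γ * Q))

/-! ### General lemmas -/

lemma form_re {n : ℕ} (L : Matrix (Fin n) (Fin n) ℝ) (x : Fin n → ℂ) :
    (star x ⬝ᵥ (L.map (fun r : ℝ => (r : ℂ)) *ᵥ x)).re =
      (fun i => (x i).re) ⬝ᵥ (L *ᵥ (fun i => (x i).re)) +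
        (fun i => (x i).im) ⬝ᵥ (L *ᵥ (fun i => (x i).im)) := by
  simp only [dotProduct, Matrix.mulVec, Matrix.map_apply, Pi.star_apply, Complex.re_sum,
    Complex.mul_re, Complex.ofReal_re, Complex.ofReal_im, Complex.im_sum, Complex.mul_im,
    RCLike.star_def, Complex.conj_re, Complex.conj_im, zero_mul, sub_zero, add_zero]
  rw [← Finset.sum_add_distrib]
  refine Finset.sum_congr rfl fun i _ => ?_
  ring

lemma form_im {n : ℕ} (L : Matrix (Fin n) (Fin n) ℝ) (x : Fin n → ℂ) :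
    (star x ⬝ᵥ (L.map (fun r : ℝ => (r : ℂ)) *ᵥ x)).im =
      (fun i => (x i).re) ⬝ᵥ (L *ᵥ (fun i => (x i).im)) -
        (fun i => (x i).im) ⬝ᵥ (L *ᵥ (fun i => (x i).re)) := by
  simp only [dotProduct, Matrix.mulVec, Matrix.map_apply, Pi.star_apply, Complex.re_sum,
    Complex.mul_re, Complex.ofReal_re, Complex.ofReal_im, Complex.im_sum, Complex.mul_im,
    RCLike.star_def, Complex.conj_re, Complex.conj_im, zero_mul, sub_zero, add_zero]
  rw [← Finset.sum_sub_distrib]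
  refine Finset.sum_congr rfl fun i _ => ?_
  ring

lemma restrictor_mul {m : ℕ} {Q : Matrix (Fin (m + 1)) (Fin m) ℂ}
    (hQ : Qᴴ * Q = 1) (hQ0 : ∀ j, ∑ i, Q i j = 0) (z : Fin (m + 1) → ℂ) (hz : ∑ i, z i = 0) :
    Q *ᵥ (Qᴴ *ᵥ z) = z := by
  set c : ℂ := ((Real.sqrt (m + 1) : ℝ) : ℂ)⁻¹ with hc
  have hpos : (0 : ℝ) < (m : ℝ) + 1 := by positivity
  have hcc : c * c * ((m : ℂ) + 1) = 1 := by
    have h1 : ((Real.sqrt (m + 1) : ℝ) : ℂ) * ((Real.sqrt (m + 1) : ℝ) : ℂ) = (m : ℂ) + 1 := by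
      rw [← Complex.ofReal_mul, Real.mul_self_sqrt hpos.le]; push_cast; ring
    have h2 : ((Real.sqrt (m + 1) : ℝ) : ℂ) ≠ 0 := by
      have : Real.sqrt (m + 1) ≠ 0 := (Real.sqrt_pos.2 hpos).ne'
      exact_mod_cast this
    rw [hc, ← h1]; field_simp
  have hstar : star c = c := by
    rw [hc, star_inv₀]; congr 1; exact Complex.conj_ofReal _
  let U : Matrix (Fin (m + 1)) (Fin m ⊕ Unit) ℂ :=
    Matrix.of fun i j => Sum.elim (fun j => Q i j) (fun _ => c) j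
  have hU : Uᴴ * U = 1 := by
    ext a b
    rcases a with a | a <;> rcases b with b | b
    · have := congrFun (congrFun hQ a) b
      simp only [Matrix.mul_apply, Matrix.conjTranspose_apply] at this ⊢
      simpa [U, Matrix.one_apply] using this
    · have := hQ0 a
      simp only [Matrix.mul_apply, Matrix.conjTranspose_apply, U, Matrix.of_apply, Sum.elim_inl,
        Sum.elim_inr]
      rw [← Finset.sum_mul, ← star_sum, this]; simp
    · have := hQ0 b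
      simp only [Matrix.mul_apply, Matrix.conjTranspose_apply, U, Matrix.of_apply, Sum.elim_inl,
        Sum.elim_inr]
      rw [← Finset.mul_sum, this]; simp
    · simp only [Matrix.mul_apply, Matrix.conjTranspose_apply, U, Matrix.of_apply, Sum.elim_inr,
        hstar]
      simp only [Finset.sum_const, Finset.card_univ, Fintype.card_fin, nsmul_eq_mul,
        Matrix.one_apply]
      push_cast
      linear_combination hcc
  have hU' : U * Uᴴ = 1 := by
    let e : (Fin m ⊕ Unit) ≃ Fin (m + 1) := Fintype.equivOfCardEq (by simp)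
    exact (Matrix.mul_eq_one_comm_of_equiv e).1 hU
  have h3 : (U * Uᴴ) *ᵥ z = z := by rw [hU', Matrix.one_mulVec]
  rw [← Matrix.mulVec_mulVec] at h3
  have h4 : Uᴴ *ᵥ z = Sum.elim (Qᴴ *ᵥ z) (fun _ => 0) := by
    ext a
    rcases a with a | a
    · simp [Matrix.mulVec, dotProduct, U, Matrix.conjTranspose_apply]
    · simp only [Matrix.mulVec, dotProduct, Matrix.conjTranspose_apply, U, Matrix.of_apply,
        Sum.elim_inr]
      rw [← Finset.mul_sum, hz, mul_zero]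
  rw [h4] at h3
  conv_rhs => rw [← h3]
  ext i
  simp [Matrix.mulVec, dotProduct, U]

/-- Restrictor matrices exist. -/
lemma exists_restrictor (m : ℕ) :
    ∃ Q : Matrix (Fin (m + 1)) (Fin m) ℂ, Qᴴ * Q = 1 ∧ ∀ j, ∑ i, Q i j = 0 := by
  let e : EuclideanSpace ℂ (Fin (m + 1)) := WithLp.toLp 2 (fun _ => (1 : ℂ))
  have he : e ≠ 0 := by
    intro h
    have := congrArg (fun f : EuclideanSpace ℂ (Fin (m + 1)) => f 0) h
    simp [e] at this
  have hdim : Module.finrank ℂ (Submodule.span ℂ {e})ᗮ = m := by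
    have : Fact (Module.finrank ℂ (EuclideanSpace ℂ (Fin (m + 1))) = m + 1) := ⟨by simp⟩
    exact Submodule.finrank_orthogonal_span_singleton he
  let b := (stdOrthonormalBasis ℂ (Submodule.span ℂ {e})ᗮ).reindex (finCongr hdim)
  refine ⟨Matrix.of fun i j => (b j : EuclideanSpace ℂ (Fin (m + 1))) i, ?_, ?_⟩
  · ext j k
    have h := b.orthonormal
    rw [orthonormal_iff_ite] at h
    have h1 := h j k
    rw [Submodule.coe_inner] at h1
    simp only [Matrix.mul_apply, Matrix.conjTranspose_apply, Matrix.of_apply, Matrix.one_apply]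
    rw [← h1]
    simp only [PiLp.inner_apply, RCLike.inner_apply]
    refine Finset.sum_congr rfl fun i _ => ?_
    rw [mul_comm]; rfl
  · intro j
    have h := (Submodule.mem_orthogonal_singleton_iff_inner_right).1 (b j).2
    simpa [PiLp.inner_apply, e] using h

/-- An eigenvalue of the Laplacian with an eigenvector orthogonal to `e` lies in the spectrum
of `Q* L Q`. -/
lemma mem_spectrum_of_eig {m : ℕ} {Q : Matrix (Fin (m + 1)) (Fin m) ℂ}
    (L : Matrix (Fin (m + 1)) (Fin (m + 1)) ℂ)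
    (hQ : Qᴴ * Q = 1) (hQ0 : ∀ j, ∑ i, Q i j = 0) (z : Fin (m + 1) → ℂ) (hz : ∑ i, z i = 0)
    (hz0 : z ≠ 0) (l : ℂ) (hl : L *ᵥ z = l • z) : l ∈ spectrum ℂ (Qᴴ * L * Q) := by
  have h1 := restrictor_mul hQ hQ0 z hz
  have hy0 : Qᴴ *ᵥ z ≠ 0 := by
    intro h; rw [h, Matrix.mulVec_zero] at h1; exact hz0 h1.symm
  have h2 : (Qᴴ * L * Q) *ᵥ (Qᴴ *ᵥ z) = l • (Qᴴ *ᵥ z) := by
    rw [← Matrix.mulVec_mulVec, ← Matrix.mulVec_mulVec, h1, hl, Matrix.mulVec_smul]
  rw [← Matrix.spectrum_toLin']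
  apply Module.End.HasEigenvalue.mem_spectrum
  apply Module.End.hasEigenvalue_of_hasEigenvector (x := Qᴴ *ᵥ z)
  exact ⟨Module.End.mem_eigenspace_iff.2 (by rw [Matrix.toLin'_apply]; exact h2), hy0⟩

/-- The spectrum of `Q* L Q` lies in the restricted numerical range. -/
lemma spectrum_subset {m : ℕ} {Q : Matrix (Fin (m + 1)) (Fin m) ℂ}
    (L : Matrix (Fin (m + 1)) (Fin (m + 1)) ℂ)
    (hQ : Qᴴ * Q = 1) (hQ0 : ∀ j, ∑ i, Q i j = 0) (l : ℂ) (hl : l ∈ spectrum ℂ (Qᴴ * L * Q)) :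
    ∃ x : Fin (m + 1) → ℂ, ∑ i, x i = 0 ∧ ∑ i, ‖x i‖ ^ 2 = 1 ∧ l = star x ⬝ᵥ (L *ᵥ x) := by
  rw [← Matrix.spectrum_toLin', ← Module.End.hasEigenvalue_iff_mem_spectrum] at hl
  obtain ⟨y, hy, hy0⟩ := hl.exists_hasEigenvector
  rw [Module.End.mem_eigenspace_iff, Matrix.toLin'_apply] at hy
  have hnn : ∀ w : Fin m → ℂ, star w ⬝ᵥ w = ((∑ i, ‖w i‖ ^ 2 : ℝ) : ℂ) := by
    intro w
    simp only [dotProduct, Pi.star_apply, RCLike.star_def, Complex.conj_mul', Complex.ofReal_sum,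
      Complex.ofReal_pow]
  have hpos : 0 < ∑ i, ‖y i‖ ^ 2 := by
    obtain ⟨j, hj⟩ := Function.ne_iff.1 hy0
    refine Finset.sum_pos' (fun i _ => by positivity) ⟨j, Finset.mem_univ _, ?_⟩
    have : y j ≠ 0 := hj
    positivity
  set N : ℝ := ∑ i, ‖y i‖ ^ 2 with hN
  let c : ℂ := ((Real.sqrt N)⁻¹ : ℝ)
  have hc : star c * c = ((N⁻¹ : ℝ) : ℂ) := by
    simp only [c, RCLike.star_def, Complex.conj_ofReal]
    rw [← Complex.ofReal_mul]
    congr 1
    rw [← mul_inv, Real.mul_self_sqrt hpos.le]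
  refine ⟨c • (Q *ᵥ y), ?_, ?_, ?_⟩
  · simp only [Pi.smul_apply, smul_eq_mul, Matrix.mulVec, dotProduct]
    rw [← Finset.mul_sum, Finset.sum_comm]
    simp only [← Finset.sum_mul, hQ0, zero_mul, Finset.sum_const_zero, mul_zero]
  · have h1 : ((∑ i, ‖(c • (Q *ᵥ y)) i‖ ^ 2 : ℝ) : ℂ) =
        star (c • (Q *ᵥ y)) ⬝ᵥ (c • (Q *ᵥ y)) := by
      simp only [dotProduct, Pi.star_apply, RCLike.star_def, Complex.conj_mul',
        Complex.ofReal_sum, Complex.ofReal_pow]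
    have h2 : star (c • (Q *ᵥ y)) ⬝ᵥ (c • (Q *ᵥ y)) = 1 := by
      rw [star_smul, smul_dotProduct, dotProduct_smul, Matrix.star_mulVec,
        ← Matrix.dotProduct_mulVec, Matrix.mulVec_mulVec, hQ, Matrix.one_mulVec, hnn, smul_smul,
        hc, ← hN, smul_eq_mul, ← Complex.ofReal_mul, inv_mul_cancel₀ hpos.ne', Complex.ofReal_one]
    rw [h2] at h1
    exact_mod_cast h1
  · have h2 : star (c • (Q *ᵥ y)) ⬝ᵥ (L *ᵥ (c • (Q *ᵥ y))) = l := by
      rw [Matrix.mulVec_smul, star_smul, smul_dotProduct, dotProduct_smul, Matrix.star_mulVec,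
        ← Matrix.dotProduct_mulVec, Matrix.mulVec_mulVec, Matrix.mulVec_mulVec, hy,
        dotProduct_smul, hnn, smul_smul, hc, ← hN, smul_smul, smul_eq_mul, mul_right_comm,
        ← Complex.ofReal_mul, inv_mul_cancel₀ hpos.ne', Complex.ofReal_one, one_mul]
    exact h2.symm

/-! ### The digraph of order 9 -/

/-- The arcs of the counterexample. -/
def adj0 : Fin 9 → Fin 9 → Bool :=
  ![![false, true, true, false, true, false, true, false, false],
    ![true, false, false, true, true, false, true, false, false],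
    ![false, true, false, true, false, true, false, true, false],
    ![true, false, true, false, false, true, false, true, false],
    ![false, false, true, true, false, false, true, false, true],
    ![true, true, false, false, false, false, false, true, true],
    ![false, false, true, true, false, true, false, false, true],
    ![true, true, false, false, true, false, false, false, true],
    ![true, true, true, true, false, false, false, false, false]]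

/-- The counterexample. -/
def G0 : Digraph (Fin 9) := ⟨fun i j => adj0 i j = true⟩

lemma outDeg_G0 (i : Fin 9) : outDeg G0 i = 4 := by
  unfold outDeg
  have : ∀ i : Fin 9, (Finset.univ.filter (fun j => adj0 i j = true)).card = 4 := by decide
  rw [← this i]
  unfold G0
  congr

/-- The Laplacian of the counterexample. -/
noncomputable def L0 : Matrix (Fin 9) (Fin 9) ℝ :=
  !![4, -1, -1, 0, -1, 0, -1, 0, 0;
    -1, 4, 0, -1, -1, 0, -1, 0, 0;
    0, -1, 4, -1, 0, -1, 0, -1, 0;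
    -1, 0, -1, 4, 0, -1, 0, -1, 0;
    0, 0, -1, -1, 4, 0, -1, 0, -1;
    -1, -1, 0, 0, 0, 4, 0, -1, -1;
    0, 0, -1, -1, 0, -1, 4, 0, -1;
    -1, -1, 0, 0, -1, 0, 0, 4, -1;
    -1, -1, -1, -1, 0, 0, 0, 0, 4]

lemma lap_G0 : lap G0 = L0 := by
  ext i j
  simp only [lap, Matrix.sub_apply, adjMat, Matrix.of_apply, Matrix.diagonal_apply, outDeg_G0]
  fin_cases i <;> fin_cases j <;> simp [L0, G0, adj0]

lemma realform (u v : Fin 9 → ℝ) : u ⬝ᵥ (L0 *ᵥ v) =
    4 * (u 0 * v 0 + u 1 * v 1 + u 2 * v 2 + u 3 * v 3 + u 4 * v 4 + u 5 * v 5 + u 6 * v 6 +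
      u 7 * v 7 + u 8 * v 8)
    - (u 0 * (v 1 + v 2 + v 4 + v 6) + u 1 * (v 0 + v 3 + v 4 + v 6) +
      u 2 * (v 1 + v 3 + v 5 + v 7)
      + u 3 * (v 0 + v 2 + v 5 + v 7) + u 4 * (v 2 + v 3 + v 6 + v 8) +
      u 5 * (v 0 + v 1 + v 7 + v 8)
      + u 6 * (v 2 + v 3 + v 5 + v 8) + u 7 * (v 0 + v 1 + v 4 + v 8) +
      u 8 * (v 0 + v 1 + v 2 + v 3)) := by
  simp [dotProduct, Matrix.mulVec, L0, Fin.sum_univ_succ]
  ring

lemma blockA (w a b e a' b' e' ε : ℝ) (hw : 0 < w) (hw2 : w ^ 2 = 5) (hε : ε ^ 2 = 1) :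
    ε * (a * b' - b * a' + e * a' + e * b' - a * e' - b * e') ≤
      w * ((a ^ 2 + b ^ 2) / 2 + e ^ 2 / 4 + (a' ^ 2 + b' ^ 2) / 2 + e' ^ 2 / 4) := by
  have key : w * (w * ((a ^ 2 + b ^ 2) / 2 + e ^ 2 / 4 + (a' ^ 2 + b' ^ 2) / 2 + e' ^ 2 / 4)
      - ε * (a * b' - b * a' + e * a' + e * b' - a * e' - b * e'))
      = (1/2) * (w * a' - ε * (e - b)) ^ 2 + (1/2) * (w * b' - ε * (a + e)) ^ 2
        + (1/4) * (w * e' + 2 * ε * (a + b)) ^ 2 + (a - b - e/2) ^ 2 := by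
    linear_combination ((a^2+b^2)/2 + e^2/4) * hw2 -
      ((1/2) * (e-b)^2 + (1/2) * (a+e)^2 + (a+b)^2) * hε
  have h0 : 0 ≤ w * (w * ((a ^ 2 + b ^ 2) / 2 + e ^ 2 / 4 + (a' ^ 2 + b' ^ 2) / 2 + e' ^ 2 / 4)
      - ε * (a * b' - b * a' + e * a' + e * b' - a * e' - b * e')) := by
    rw [key]; positivity
  have := nonneg_of_mul_nonneg_right h0 hw
  linarith

lemma blockQ (w s r s' r' ε : ℝ) (hw : 11/5 ≤ w) (hε : ε ^ 2 = 1) :
    ε * (2 * (s * r' - r * s')) ≤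
      w * s ^ 2 / 4 + r ^ 2 / 4 + (w + 1) / 2 * (s + r) ^ 2 +
        (w * s' ^ 2 / 4 + r' ^ 2 / 4 + (w + 1) / 2 * (s' + r') ^ 2) := by
  nlinarith [sq_nonneg (43/20 * s + 8/5 * r - ε * r'), sq_nonneg (43/20 * s' + 8/5 * r' + ε * r),
    sq_nonneg r, sq_nonneg r', mul_nonneg (sub_nonneg.2 hw) (sq_nonneg s),
    mul_nonneg (sub_nonneg.2 hw) (sq_nonneg s'), mul_nonneg (sub_nonneg.2 hw) (sq_nonneg (s+r)),
    mul_nonneg (sub_nonneg.2 hw) (sq_nonneg (s'+r'))]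

lemma blockB (a b a' b' ε : ℝ) (hε : ε ^ 2 = 1) :
    ε * (a * b' - b * a') ≤ (a ^ 2 + b ^ 2) / 2 + (a' ^ 2 + b' ^ 2) / 2 := by
  have h1 : (ε * b') ^ 2 = b' ^ 2 := by rw [mul_pow, hε, one_mul]
  have h2 : (ε * a') ^ 2 = a' ^ 2 := by rw [mul_pow, hε, one_mul]
  nlinarith [sq_nonneg (a - ε * b'), sq_nonneg (b + ε * a')]

/-- The slanted sides. -/
lemma slanted (w ε : ℝ) (u v : Fin 9 → ℝ) (hw : 11/5 ≤ w) (hw2 : w ^ 2 = 5) (hε : ε ^ 2 = 1)
    (hu : ∑ i, u i = 0) (hv : ∑ i, v i = 0) :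
    ε * (u ⬝ᵥ (L0 *ᵥ v) - v ⬝ᵥ (L0 *ᵥ u)) ≤
      w * (∑ i, u i ^ 2 + ∑ i, v i ^ 2) - (w - 1) *
        ((u ⬝ᵥ (L0 *ᵥ u) + v ⬝ᵥ (L0 *ᵥ v)) - 4 * (∑ i, u i ^ 2 + ∑ i, v i ^ 2)) := by
  have h8 : ∀ f : Fin 9 → ℝ, ∑ i, f i = 0 →
      f 8 = -(f 0 + f 1 + f 2 + f 3 + f 4 + f 5 + f 6 + f 7) := by
    intro f hf
    simp [Fin.sum_univ_succ] at hf
    linarith
  have hu8 := h8 u hu
  have hv8 := h8 v hv
  have hsq : ∀ f : Fin 9 → ℝ, ∑ i, f i ^ 2 = f 0 ^ 2 + f 1 ^ 2 + f 2 ^ 2 + f 3 ^ 2 + f 4 ^ 2 +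
      f 5 ^ 2 + f 6 ^ 2 + f 7 ^ 2 + f 8 ^ 2 := by
    intro f
    simp [Fin.sum_univ_succ]
    ring
  rw [hsq, hsq, realform, realform, realform, realform, hu8, hv8]
  have hA := blockA w (u 4 - u 5) (u 6 - u 7) (u 0 + u 1 - u 2 - u 3)
    (v 4 - v 5) (v 6 - v 7) (v 0 + v 1 - v 2 - v 3) (-ε) (by linarith) hw2 (by linarith)
  have hB := blockB (u 0 - u 1) (u 2 - u 3) (v 0 - v 1) (v 2 - v 3) (-ε) (by linarith)
  have hB2 : 0 ≤ (u 4 + u 5 - u 6 - u 7) ^ 2 / 4 + (v 4 + v 5 - v 6 - v 7) ^ 2 / 4 := by positivity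
  have hQ := blockQ w (u 0 + u 1 + u 2 + u 3) (u 4 + u 5 + u 6 + u 7)
    (v 0 + v 1 + v 2 + v 3) (v 4 + v 5 + v 6 + v 7) (-ε) hw (by linarith)
  linarith

lemma sum_sq (f : Fin 9 → ℝ) : ∑ i, f i ^ 2 = f 0 ^ 2 + f 1 ^ 2 + f 2 ^ 2 + f 3 ^ 2 + f 4 ^ 2 +
    f 5 ^ 2 + f 6 ^ 2 + f 7 ^ 2 + f 8 ^ 2 := by
  simp [Fin.sum_univ_succ]
  ring

/-- Lower bound for the real form. -/
lemma real_lower (u : Fin 9 → ℝ) (hu : ∑ i, u i = 0) : 4 * ∑ i, u i ^ 2 ≤ u ⬝ᵥ (L0 *ᵥ u) := by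
  have hu8 : u 8 = -(u 0 + u 1 + u 2 + u 3 + u 4 + u 5 + u 6 + u 7) := by
    simp [Fin.sum_univ_succ] at hu
    linarith
  have key : u ⬝ᵥ (L0 *ᵥ u) - 4 * ∑ i, u i ^ 2 = ((u 0 - u 1) ^ 2 + (u 2 - u 3) ^ 2 +
      (u 4 + u 5) ^ 2 + (u 6 + u 7) ^ 2 + u 8 ^ 2) / 2 := by
    rw [sum_sq, realform, hu8]; ring
  have : 0 ≤ u ⬝ᵥ (L0 *ᵥ u) - 4 * ∑ i, u i ^ 2 := by rw [key]; positivity
  linarith

/-- Upper bound for the real form. -/
lemma real_upper (u : Fin 9 → ℝ) (hu : ∑ i, u i = 0) : u ⬝ᵥ (L0 *ᵥ u) ≤ 5 * ∑ i, u i ^ 2 := by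
  have hu8 : u 8 = -(u 0 + u 1 + u 2 + u 3 + u 4 + u 5 + u 6 + u 7) := by
    simp [Fin.sum_univ_succ] at hu
    linarith
  have key : 5 * ∑ i, u i ^ 2 - u ⬝ᵥ (L0 *ᵥ u) = ((u 0 + u 1) ^ 2 + (u 2 + u 3) ^ 2 +
      (u 4 - u 5) ^ 2 + (u 6 - u 7) ^ 2 + u 8 ^ 2) / 2 := by
    rw [sum_sq, realform, hu8]; ring
  have : 0 ≤ 5 * ∑ i, u i ^ 2 - u ⬝ᵥ (L0 *ᵥ u) := by rw [key]; positivity
  linarith

lemma real_values_bounds : 4 ∈ realValues G0 ∧ 5 ∈ realValues G0 ∧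
    ∀ t ∈ realValues G0, 4 ≤ t ∧ t ≤ 5 := by
  refine ⟨?_, ?_, ?_⟩
  · refine ⟨![0, 0, 0, 0, Real.sqrt (1/2), -Real.sqrt (1/2), 0, 0, 0], ?_, ?_, ?_⟩
    · simp [Fin.sum_univ_succ]
    · rw [sum_sq]
      have : Real.sqrt (1/2) ^ 2 = 1/2 := Real.sq_sqrt (by norm_num)
      simp [-one_div] at this ⊢
      linarith
    · rw [lap_G0, realform]
      have : Real.sqrt (1/2) ^ 2 = 1/2 := Real.sq_sqrt (by norm_num)
      simp [-one_div] at this ⊢
      linarith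
  · refine ⟨![Real.sqrt (1/2), -Real.sqrt (1/2), 0, 0, 0, 0, 0, 0, 0], ?_, ?_, ?_⟩
    · simp [Fin.sum_univ_succ]
    · rw [sum_sq]
      have : Real.sqrt (1/2) ^ 2 = 1/2 := Real.sq_sqrt (by norm_num)
      simp [-one_div] at this ⊢
      linarith
    · rw [lap_G0, realform]
      have : Real.sqrt (1/2) ^ 2 = 1/2 := Real.sq_sqrt (by norm_num)
      simp [-one_div] at this ⊢
      linarith
  · rintro t ⟨x, hx, hx1, rfl⟩
    rw [lap_G0]
    have h1 := real_lower x hx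
    have h2 := real_upper x hx
    rw [hx1] at h1 h2
    exact ⟨by linarith, by linarith⟩

/-- The trapezoid with corners `4 ± i√5`, `5 ± i`. -/
def T : Set ℂ := {z | 4 ≤ z.re ∧ z.re ≤ 5 ∧
  z.im ≤ Real.sqrt 5 - (Real.sqrt 5 - 1) * (z.re - 4) ∧
  -z.im ≤ Real.sqrt 5 - (Real.sqrt 5 - 1) * (z.re - 4)}

lemma convex_T : Convex ℝ T := by
  intro x hx y hy a b ha hb hab
  obtain ⟨h1, h2, h3, h4⟩ := hx
  obtain ⟨k1, k2, k3, k4⟩ := hy
  have hb' : b = 1 - a := by linarith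
  subst hb'
  refine ⟨?_, ?_, ?_, ?_⟩ <;>
    simp only [Complex.add_re, Complex.add_im, Complex.real_smul, Complex.mul_re, Complex.mul_im,
      Complex.ofReal_re, Complex.ofReal_im, zero_mul, sub_zero, add_zero] <;>
    nlinarith [mul_le_mul_of_nonneg_left h1 ha, mul_le_mul_of_nonneg_left h2 ha,
      mul_le_mul_of_nonneg_left h3 ha, mul_le_mul_of_nonneg_left h4 ha,
      mul_le_mul_of_nonneg_left k1 hb, mul_le_mul_of_nonneg_left k2 hb,
      mul_le_mul_of_nonneg_left k3 hb, mul_le_mul_of_nonneg_left k4 hb]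

lemma sqrt5 : Real.sqrt 5 ^ 2 = 5 ∧ 11/5 ≤ Real.sqrt 5 := by
  refine ⟨Real.sq_sqrt (by norm_num), ?_⟩
  apply Real.le_sqrt_of_sq_le
  norm_num

/-- The restricted numerical range lies in the trapezoid. -/
lemma Wr_subset : Wr G0 ⊆ T := by
  rintro z ⟨x, hx, hx1, rfl⟩
  obtain ⟨hw2, hw⟩ := sqrt5
  have hre : ∑ i, (x i).re = 0 := by
    have := congrArg Complex.re hx
    simpa [Complex.re_sum] using this
  have him : ∑ i, (x i).im = 0 := by
    have := congrArg Complex.im hx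
    simpa [Complex.im_sum] using this
  have hN : ∑ i, (x i).re ^ 2 + ∑ i, (x i).im ^ 2 = 1 := by
    rw [← hx1, ← Finset.sum_add_distrib]
    refine Finset.sum_congr rfl fun i _ => ?_
    rw [← Complex.normSq_eq_norm_sq, Complex.normSq_apply]; ring
  have e1 := form_re (lap G0) x
  have e2 := form_im (lap G0) x
  rw [lap_G0] at e1 e2
  have a1 := real_lower (fun i => (x i).re) hre
  have a2 := real_lower (fun i => (x i).im) him
  have b1 := real_upper (fun i => (x i).re) hre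
  have b2 := real_upper (fun i => (x i).im) him
  have c1 := slanted (Real.sqrt 5) 1 (fun i => (x i).re) (fun i => (x i).im) hw hw2 (by norm_num)
    hre him
  have c2 := slanted (Real.sqrt 5) (-1) (fun i => (x i).re) (fun i => (x i).im) hw hw2
    (by norm_num) hre him
  rw [hN] at c1 c2
  rw [lapC, lap_G0]
  refine ⟨?_, ?_, ?_, ?_⟩
  · rw [e1]; linarith
  · rw [e1]; linarith
  · rw [e1, e2]; linarith
  · rw [e1, e2]; linarith

/-- Every point of the trapezoid is a convex combination of the corners. -/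
lemma T_comb (z : ℂ) (hz : z ∈ T) : ∃ t1 t2 t3 t4 : ℝ, 0 ≤ t1 ∧ 0 ≤ t2 ∧ 0 ≤ t3 ∧ 0 ≤ t4 ∧
    t1 + t2 + t3 + t4 = 1 ∧ z.re = 4 * (t1 + t2) + 5 * (t3 + t4) ∧
    z.im = Real.sqrt 5 * (t1 - t2) + (t3 - t4) := by
  obtain ⟨h1, h2, h3, h4⟩ := hz
  obtain ⟨hw2, hw⟩ := sqrt5
  set w := Real.sqrt 5
  set s := z.re - 4 with hs
  have hs0 : 0 ≤ s := by linarith
  have hs1 : s ≤ 1 := by linarith
  set h := w - (w - 1) * s with hh
  have hpos : 0 < h := by nlinarith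
  set τ := (z.im / h + 1) / 2 with hτ
  have hzi : z.im = h * (2 * τ - 1) := by rw [hτ]; field_simp; ring
  have hτ0 : 0 ≤ τ := by
    have : -1 ≤ z.im / h := by rw [le_div_iff₀ hpos]; linarith
    rw [hτ]; linarith
  have hτ1 : τ ≤ 1 := by
    have : z.im / h ≤ 1 := by rw [div_le_iff₀ hpos]; linarith
    rw [hτ]; linarith
  refine ⟨(1 - s) * τ, (1 - s) * (1 - τ), s * τ, s * (1 - τ), ?_, ?_, ?_, ?_, ?_, ?_, ?_⟩
  · exact mul_nonneg (by linarith) hτ0
  · exact mul_nonneg (by linarith) (by linarith)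
  · exact mul_nonneg hs0 hτ0
  · exact mul_nonneg hs0 (by linarith)
  · ring
  · have : z.re = s + 4 := by rw [hs]; ring
    rw [this]; ring
  · rw [hzi, hh]; ring

/-- The trapezoid lies in the restricted numerical range. -/
lemma T_subset : T ⊆ Wr G0 := by
  intro z hz
  obtain ⟨t1, t2, t3, t4, h1, h2, h3, h4, hsum, hre, him⟩ := T_comb z hz
  obtain ⟨hw2, hw⟩ := sqrt5
  set w := Real.sqrt 5 with hwdef
  obtain ⟨a1, ha1⟩ : ∃ a : ℝ, a ^ 2 = t1 / 40 := ⟨Real.sqrt (t1/40), Real.sq_sqrt (by positivity)⟩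
  obtain ⟨a2, ha2⟩ : ∃ a : ℝ, a ^ 2 = t2 / 40 := ⟨Real.sqrt (t2/40), Real.sq_sqrt (by positivity)⟩
  obtain ⟨a3, ha3⟩ : ∃ a : ℝ, a ^ 2 = t3 / 4 := ⟨Real.sqrt (t3/4), Real.sq_sqrt (by positivity)⟩
  obtain ⟨a4, ha4⟩ : ∃ a : ℝ, a ^ 2 = t4 / 4 := ⟨Real.sqrt (t4/4), Real.sq_sqrt (by positivity)⟩
  let p : ℝ := a1 + a2
  let q : ℝ := a3 + a4
  let r : ℝ := w * (a2 - a1)
  let s : ℝ := a3 - a4
  let u : Fin 9 → ℝ := ![2 * p, 2 * p, -2 * p + q, -2 * p - q, p, -p, -p, p, 0]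
  let v : Fin 9 → ℝ := ![s, -s, 0, 0, r, -r, r, -r, 0]
  let x : Fin 9 → ℂ := fun i => ⟨u i, v i⟩
  have hxr : (fun i => (x i).re) = u := rfl
  have hxi : (fun i => (x i).im) = v := rfl
  refine ⟨x, ?_, ?_, ?_⟩
  · apply Complex.ext
    · rw [Complex.re_sum]
      change ∑ i, u i = 0
      simp [u, Fin.sum_univ_succ]
    · rw [Complex.im_sum]
      change ∑ i, v i = 0
      simp [v, Fin.sum_univ_succ]
  · have : ∑ i, ‖x i‖ ^ 2 = ∑ i, u i ^ 2 + ∑ i, v i ^ 2 := by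
      rw [← Finset.sum_add_distrib]
      refine Finset.sum_congr rfl fun i _ => ?_
      rw [← Complex.normSq_eq_norm_sq, Complex.normSq_apply]; simp only [x]; ring
    rw [this, sum_sq, sum_sq]
    simp [u, v, p, q, r, s]
    nlinarith
  · have e1 := form_re (lap G0) x
    have e2 := form_im (lap G0) x
    rw [hxr, hxi, lap_G0] at e1 e2
    rw [lapC, lap_G0]
    apply Complex.ext
    · rw [e1, hre, realform, realform]
      simp [u, v, p, q, r, s]
      nlinarith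
    · rw [e2, him, realform, realform]
      simp [u, v, p, q, r, s]
      nlinarith

/-- The corners are eigenvalues of `Q* L Q`. -/
lemma corner_mem (Q : Matrix (Fin 9) (Fin 8) ℂ) (hQ : Qᴴ * Q = 1) (hQ0 : ∀ j, ∑ i, Q i j = 0)
    (δ : ℝ) (hδ : δ ^ 2 = 1) :
    (⟨4, δ * Real.sqrt 5⟩ : ℂ) ∈ spectrum ℂ (Qᴴ * lapC G0 * Q) ∧
    (⟨5, δ⟩ : ℂ) ∈ spectrum ℂ (Qᴴ * lapC G0 * Q) := by
  obtain ⟨hw2, hw⟩ := sqrt5
  set w := Real.sqrt 5 with hwdef
  constructor
  · let u : Fin 9 → ℝ := ![2, 2, -2, -2, 1, -1, -1, 1, 0]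
    let v : Fin 9 → ℝ := ![0, 0, 0, 0, -(δ * w), δ * w, -(δ * w), δ * w, 0]
    have hL : ∀ f : Fin 9 → ℝ, L0 *ᵥ f = ![4 * f 0 - (f 1 + f 2 + f 4 + f 6),
        4 * f 1 - (f 0 + f 3 + f 4 + f 6), 4 * f 2 - (f 1 + f 3 + f 5 + f 7),
        4 * f 3 - (f 0 + f 2 + f 5 + f 7), 4 * f 4 - (f 2 + f 3 + f 6 + f 8),
        4 * f 5 - (f 0 + f 1 + f 7 + f 8), 4 * f 6 - (f 2 + f 3 + f 5 + f 8),
        4 * f 7 - (f 0 + f 1 + f 4 + f 8), 4 * f 8 - (f 0 + f 1 + f 2 + f 3)] := by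
      intro f
      ext i
      fin_cases i <;> simp [L0, Matrix.mulVec, dotProduct, Fin.sum_univ_succ] <;> ring
    apply mem_spectrum_of_eig (lapC G0) hQ hQ0 (fun i => (⟨u i, v i⟩ : ℂ))
    · apply Complex.ext
      · rw [Complex.re_sum]
        change ∑ i, u i = 0
        simp [u, Fin.sum_univ_succ]
        try norm_num
      · rw [Complex.im_sum]
        change ∑ i, v i = 0
        simp [v, Fin.sum_univ_succ]
    · intro h
      have := congrArg Complex.re (congrFun h 0)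
      simp [u] at this
    · have hmv : lapC G0 *ᵥ (fun i => (⟨u i, v i⟩ : ℂ)) = fun i => ⟨(L0 *ᵥ u) i, (L0 *ᵥ v) i⟩ := by
        ext i
        rw [lapC, lap_G0]
        apply Complex.ext
        · simp only [Matrix.mulVec, dotProduct, Complex.re_sum, Matrix.map_apply, Complex.mul_re,
            Complex.ofReal_re, Complex.ofReal_im, zero_mul, sub_zero]
        · simp only [Matrix.mulVec, dotProduct, Complex.im_sum, Matrix.map_apply, Complex.mul_im,
            Complex.ofReal_re, Complex.ofReal_im, zero_mul, add_zero]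
      rw [hmv, hL, hL]
      funext i
      fin_cases i <;> apply Complex.ext <;> simp [u, v] <;> nlinarith
  · let u : Fin 9 → ℝ := ![0, 0, 1, -1, 0, 0, 0, 0, 0]
    let v : Fin 9 → ℝ := ![δ, -δ, 0, 0, 0, 0, 0, 0, 0]
    have hL : ∀ f : Fin 9 → ℝ, L0 *ᵥ f = ![4 * f 0 - (f 1 + f 2 + f 4 + f 6),
        4 * f 1 - (f 0 + f 3 + f 4 + f 6), 4 * f 2 - (f 1 + f 3 + f 5 + f 7),
        4 * f 3 - (f 0 + f 2 + f 5 + f 7), 4 * f 4 - (f 2 + f 3 + f 6 + f 8),
        4 * f 5 - (f 0 + f 1 + f 7 + f 8), 4 * f 6 - (f 2 + f 3 + f 5 + f 8),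
        4 * f 7 - (f 0 + f 1 + f 4 + f 8), 4 * f 8 - (f 0 + f 1 + f 2 + f 3)] := by
      intro f
      ext i
      fin_cases i <;> simp [L0, Matrix.mulVec, dotProduct, Fin.sum_univ_succ] <;> ring
    apply mem_spectrum_of_eig (lapC G0) hQ hQ0 (fun i => (⟨u i, v i⟩ : ℂ))
    · apply Complex.ext
      · rw [Complex.re_sum]
        change ∑ i, u i = 0
        simp [u, Fin.sum_univ_succ]
      · rw [Complex.im_sum]
        change ∑ i, v i = 0
        simp [v, Fin.sum_univ_succ]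
    · intro h
      have := congrArg Complex.re (congrFun h 2)
      simp [u] at this
    · have hmv : lapC G0 *ᵥ (fun i => (⟨u i, v i⟩ : ℂ)) = fun i => ⟨(L0 *ᵥ u) i, (L0 *ᵥ v) i⟩ := by
        ext i
        rw [lapC, lap_G0]
        apply Complex.ext
        · simp only [Matrix.mulVec, dotProduct, Complex.re_sum, Matrix.map_apply, Complex.mul_re,
            Complex.ofReal_re, Complex.ofReal_im, zero_mul, sub_zero]
        · simp only [Matrix.mulVec, dotProduct, Complex.im_sum, Matrix.map_apply, Complex.mul_im,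
            Complex.ofReal_re, Complex.ofReal_im, zero_mul, add_zero]
      rw [hmv, hL, hL]
      funext i
      fin_cases i <;> apply Complex.ext <;> simp [u, v] <;> nlinarith

/-- The digraph is polygonal. -/
lemma polygonal_G0 : IsPolygonal G0 := by
  refine ⟨exists_restrictor 8, ?_⟩
  rintro Q ⟨hQ, hQ0⟩
  have hspec : spectrum ℂ (Qᴴ * lapC G0 * Q) ⊆ T := by
    intro l hl
    exact Wr_subset (spectrum_subset (lapC G0) hQ hQ0 l hl)
  apply Set.Subset.antisymm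
  · intro z hz
    obtain ⟨t1, t2, t3, t4, h1, h2, h3, h4, hsum, hre, him⟩ := T_comb z (Wr_subset hz)
    obtain ⟨c1, c3⟩ := corner_mem Q hQ hQ0 1 (by norm_num)
    obtain ⟨c2, c4⟩ := corner_mem Q hQ hQ0 (-1) (by norm_num)
    have hconv := convex_convexHull ℝ (spectrum ℂ (Qᴴ * lapC G0 * Q))
    have m1 := subset_convexHull ℝ _ c1
    have m2 := subset_convexHull ℝ _ c2
    have m3 := subset_convexHull ℝ _ c3
    have m4 := subset_convexHull ℝ _ c4
    have hz' : z = ∑ i : Fin 4, (![t1, t2, t3, t4] i) • (![(⟨4, 1 * Real.sqrt 5⟩ : ℂ),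
        ⟨4, (-1) * Real.sqrt 5⟩, ⟨5, 1⟩, ⟨5, -1⟩] i) := by
      apply Complex.ext
      · simp [Fin.sum_univ_four]; linarith
      · simp [Fin.sum_univ_four]; linarith
    rw [hz']
    apply hconv.sum_mem
    · intro i _
      fin_cases i <;> simpa
    · simp [Fin.sum_univ_four]; linarith
    · intro i _
      fin_cases i
      · exact m1
      · exact m2
      · exact m3
      · exact m4
  · exact (convexHull_min hspec convex_T).trans T_subset

lemma spread_G0 : spread G0 = 1 := by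
  obtain ⟨h4, h5, hb⟩ := real_values_bounds
  have hα : alpha G0 = 4 := by
    apply le_antisymm
    · exact csInf_le ⟨4, fun t ht => (hb t ht).1⟩ h4
    · exact le_csInf ⟨4, h4⟩ fun t ht => (hb t ht).1
  have hβ : beta G0 = 5 := by
    apply le_antisymm
    · exact csSup_le ⟨5, h5⟩ fun t ht => (hb t ht).2
    · exact le_csSup ⟨5, fun t ht => (hb t ht).2⟩ h5
  rw [spread, hα, hβ]; norm_num

/-- **Counterexample.** There is a loopless polygonal digraph of order `9` (an odd number) whose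
Laplacian spread is one. -/
theorem result : ∃ Γ : Digraph (Fin 9), (∀ i, ¬ Γ.Adj i i) ∧ IsPolygonal Γ ∧ spread Γ = 1 := by
  refine ⟨G0, ?_, polygonal_G0, spread_G0⟩
  intro i
  have : ∀ i, adj0 i i = false := by decide
  simp [G0, this i]

/-- The in-degree of a vertex. -/
noncomputable def inDeg {n : ℕ} (Γ : Digraph (Fin n)) (i : Fin n) : ℕ := by
  classical exact (Finset.univ.filter (fun j => Γ.Adj j i)).card

/-- The complement: arcs `(i,j)`, `i ≠ j`, that are not arcs of `Γ`. -/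
def compl {n : ℕ} (Γ : Digraph (Fin n)) : Digraph (Fin n) :=
  ⟨fun i j => i ≠ j ∧ ¬ Γ.Adj i j⟩

/-- `Γ` is `d`-regular: all in- and out-degrees equal `d`. -/
def IsRegular {n : ℕ} (Γ : Digraph (Fin n)) (d : ℕ) : Prop :=
  ∀ i, outDeg Γ i = d ∧ inDeg Γ i = d

/-- The literal negation of the question, a consequence of `result`. -/
theorem question_fails : ¬ ∀ n : ℕ, 2 ≤ n → ∀ Γ : Digraph (Fin n), (∀ i, ¬ Γ.Adj i i) →
    IsPolygonal Γ → spread Γ = 1 →
      Even n ∧ 4 ≤ n ∧ (IsRegular Γ ((n - 2) / 2) ∨ IsRegular (compl Γ) ((n - 2) / 2)) := by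
  intro h
  obtain ⟨Γ, h1, h2, h3⟩ := result
  exact absurd (h 9 (by norm_num) Γ h1 h2 h3).1 (by decide)

end Pool.Agent.Results.MP_8a2148_co.SpreadOne
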